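import Pool.Agent.V11142.SidDefs

/-!
# Sidorenko exponents of tight cycles are linear in the length
-/

set_option autoImplicit false

namespace Pool.Agent.Results.MP_c1a6cd_co.TightCycles

open Finset
open Pool.Agent.V11142.SidDefs
open scoped ENNReal

/-- The edge `{i, i + 1, …, i + r - 1}` (modulo `n`). -/
def edge (r n : ℕ) (i : Fin n) : Finset (Fin n) :=
  (range r).image fun k => ⟨(i.val + k) % n, Nat.mod_lt _ i.pos⟩

/-- The `r`-uniform tight cycle on `r ℓ` vertices. -/
def tightCycle (r ℓ : ℕ) : Finset (Finset (Fin (r * ℓ))) := univ.image (edge r (r * ℓ))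

theorem residue_inj {r i k k' : ℕ} (hk : k < r) (hk' : k' < r) (h : (i + k) % r = (i + k') % r) :
    k = k' := by
  have h1 : i + k ≡ i + k' [MOD r] := h
  have h2 : k ≡ k' [MOD r] := Nat.ModEq.add_left_cancel' i h1
  exact Nat.ModEq.eq_of_lt_of_lt h2 hk hk'

theorem residue_exists {r i c : ℕ} (hc : c < r) : ∃ k < r, (i + k) % r = c := by
  have h1 : (range r).image (fun k => (i + k) % r) = range r := by
    apply eq_of_subset_of_card_le
    · intro x hx
      obtain ⟨k, _, rfl⟩ := mem_image.1 hx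
      rw [mem_range]
      exact Nat.mod_lt _ (by omega)
    · rw [card_image_of_injOn]
      intro k hk k' hk' h
      rw [mem_coe, mem_range] at hk hk'
      exact residue_inj hk hk' h
  have h2 : c ∈ (range r).image (fun k => (i + k) % r) := by
    rw [h1, mem_range]
    exact hc
  obtain ⟨k, hk, hkc⟩ := mem_image.1 h2
  exact ⟨k, mem_range.1 hk, hkc⟩

theorem tightCycle_partite {r ℓ : ℕ} (hr : 0 < r) : IsPartite r (tightCycle r ℓ) := by
  refine ⟨fun v => ⟨v.val % r, Nat.mod_lt _ hr⟩, ?_⟩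
  intro e he c
  obtain ⟨i, _, rfl⟩ := mem_image.1 he
  obtain ⟨k, hk, hkc⟩ := residue_exists (i := i.val) c.2
  have hmod : ∀ a : ℕ, a % (r * ℓ) % r = a % r := fun a => Nat.mod_mod_of_dvd a (dvd_mul_right r ℓ)
  rw [card_eq_one]
  refine ⟨⟨(i.val + k) % (r * ℓ), Nat.mod_lt _ i.pos⟩, ?_⟩
  ext v
  rw [mem_filter, mem_singleton]
  constructor
  · rintro ⟨hv, hvc⟩
    obtain ⟨k', hk', rfl⟩ := mem_image.1 hv
    rw [Fin.ext_iff] at hvc
    simp only [hmod] at hvc
    have : k' = k := residue_inj (mem_range.1 hk') hk (hvc.trans hkc.symm)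
    rw [this]
  · rintro rfl
    refine ⟨mem_image.2 ⟨k, mem_range.2 hk, rfl⟩, ?_⟩
    apply Fin.ext
    simp only [hmod]
    exact hkc

theorem tightCycle_degree {r ℓ : ℕ} : MaxDegLe (tightCycle r ℓ) r := by
  intro v
  -- the edges at `v` start at one of `v, v - 1, …, v - r + 1`
  have h1 : ((tightCycle r ℓ).filter fun e => v ∈ e) ⊆
      (univ.filter fun i : Fin (r * ℓ) => ∃ k < r, (i.val + k) % (r * ℓ) = v.val).image
        (edge r (r * ℓ)) := by
    intro e he
    rw [mem_filter] at he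
    obtain ⟨i, _, rfl⟩ := mem_image.1 he.1
    obtain ⟨k, hk, hkv⟩ := mem_image.1 he.2
    apply mem_image_of_mem
    rw [mem_filter]
    exact ⟨mem_univ _, k, mem_range.1 hk, congrArg Fin.val hkv⟩
  refine (card_le_card h1).trans (card_image_le.trans ?_)
  have h2 : ∀ i ∈ (univ.filter fun i : Fin (r * ℓ) => ∃ k < r, (i.val + k) % (r * ℓ) = v.val),
      ∃ k < r, (i.val + k) % (r * ℓ) = v.val := fun i hi => (mem_filter.1 hi).2
  choose! g hg1 hg2 using h2
  calc (univ.filter fun i : Fin (r * ℓ) => ∃ k < r, (i.val + k) % (r * ℓ) = v.val).card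
      ≤ (range r).card := by
        apply card_le_card_of_injOn g
        · intro i hi
          rw [coe_range, Set.mem_Iio]
          exact hg1 i hi
        · intro i hi j hj hij
          have e1 := hg2 i hi
          have e2 := hg2 j hj
          rw [hij] at e1
          have e3 : i.val + g j ≡ j.val + g j [MOD (r * ℓ)] := e1.trans e2.symm
          have e4 : i.val ≡ j.val [MOD (r * ℓ)] := Nat.ModEq.add_right_cancel' _ e3
          exact Fin.ext (Nat.ModEq.eq_of_lt_of_lt e4 i.2 j.2)
    _ = r := card_range r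

/-- **Sidorenko exponents of tight cycles.**  For every `r ≥ 4` there is a constant `K_r` such that
the `r`-uniform tight cycle on `r ℓ` vertices has Sidorenko exponent at most `K_r r ℓ`, for all
`ℓ ≥ 2`. -/
theorem result : ∀ r : ℕ, 4 ≤ r → ∃ C : ℕ, ∀ ℓ : ℕ, 2 ≤ ℓ →
    sidorenkoExponent r (tightCycle r ℓ) ≤ ((C * (r * ℓ) : ℕ) : ℝ≥0∞) := by
  intro r hr
  obtain ⟨C, hC⟩ := sidorenkoExponent_le r (by omega) r
  refine ⟨C, fun ℓ _ => ?_⟩
  refine (hC _ _ (tightCycle_partite (by omega)) tightCycle_degree).trans ?_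
  have h1 : (tightCycle r ℓ).card ≤ r * ℓ := by
    unfold tightCycle
    refine card_image_le.trans ?_
    rw [card_univ, Fintype.card_fin]
  exact_mod_cast Nat.mul_le_mul_left C h1

end Pool.Agent.Results.MP_c1a6cd_co.TightCycles
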